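import Pool.Agent.N988.EP.Stm

set_option autoImplicit false

open Filter
open scoped Topology

namespace Pool.Agent.N283.EP

/-- the map in the variable `u = 1 - x` -/
def G (m : ℕ) (u : ℝ) : ℝ := (1 - (1 - u) ^ 2) ^ (m + 1)

/-- the quotient `G u / u` -/
def g (m : ℕ) (u : ℝ) : ℝ := u ^ m * (2 - u) ^ (m + 1)

theorem G_eq (m : ℕ) (u : ℝ) : G m u = u * g m u := by
  unfold G g
  have : 1 - (1 - u) ^ 2 = u * (2 - u) := by ring
  rw [this, mul_pow, pow_succ u m]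
  ring

theorem g_one (m : ℕ) : g m 1 = 1 := by
  unfold g; norm_num

theorem G_cont (m : ℕ) : Continuous (G m) := by
  unfold G; fun_prop

theorem g_cont (m : ℕ) : Continuous (g m) := by
  unfold g; fun_prop

theorem g_pos (m : ℕ) {u : ℝ} (h0 : 0 < u) (h2 : u < 2) : 0 < g m u :=
  mul_pos (pow_pos h0 m) (pow_pos (by linarith) _)

theorem log_g (m : ℕ) {u : ℝ} (h0 : 0 < u) (h2 : u < 2) :
    Real.log (g m u) = m * Real.log u + (m + 1) * Real.log (2 - u) := by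
  unfold g
  rw [Real.log_mul (pow_pos h0 m).ne' (pow_pos (by linarith) _).ne', Real.log_pow, Real.log_pow]
  push_cast
  ring

theorem conc (m : ℕ) {x y t : ℝ} (hx : 0 < x) (hx2 : x < 2) (hy : 0 < y)
    (hy2 : y < 2) (hxy : x ≠ y) (ht : 0 < t) (ht1 : t < 1) :
    t * Real.log (g m x) + (1 - t) * Real.log (g m y) < Real.log (g m (t * x + (1 - t) * y)) := by
  have hz : 0 < t * x + (1 - t) * y := add_pos (mul_pos ht hx) (mul_pos (by linarith) hy)
  have hz2 : t * x + (1 - t) * y < 2 := by nlinarith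
  rw [log_g m hx hx2, log_g m hy hy2, log_g m hz hz2]
  have h1 := strictConcaveOn_log_Ioi.2 (Set.mem_Ioi.2 hx) (Set.mem_Ioi.2 hy) hxy ht
    (by linarith : 0 < 1 - t) (by ring)
  have h2 := strictConcaveOn_log_Ioi.2 (Set.mem_Ioi.2 (by linarith : 0 < 2 - x))
    (Set.mem_Ioi.2 (by linarith : 0 < 2 - y)) (fun h => hxy (by linarith)) ht
    (by linarith : 0 < 1 - t) (by ring)
  simp only [smul_eq_mul] at h1 h2
  have e : t * (2 - x) + (1 - t) * (2 - y) = 2 - (t * x + (1 - t) * y) := by ring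
  rw [e] at h2
  have h3 := mul_le_mul_of_nonneg_left h1.le (Nat.cast_nonneg (α := ℝ) m)
  have h4 := mul_lt_mul_of_pos_left h2 (by positivity : (0 : ℝ) < (m : ℝ) + 1)
  nlinarith

theorem g_gt (m : ℕ) {c u : ℝ} (hc : 0 < c) (hgc : g m c = 1) (h1 : c < u) (h2 : u < 1) :
    1 < g m u := by
  have hc1 : c < 1 := h1.trans h2
  have hd : 0 < 1 - c := by linarith
  have h3 := conc m hc (by linarith : c < 2) one_pos (by norm_num : (1 : ℝ) < 2) hc1.ne
    (t := (1 - u) / (1 - c)) (div_pos (by linarith) hd) (by rw [div_lt_one hd]; linarith)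
  rw [hgc, g_one, Real.log_one, mul_zero, mul_zero, add_zero] at h3
  have e : (1 - u) / (1 - c) * c + (1 - (1 - u) / (1 - c)) * 1 = u := by
    field_simp
    ring
  rw [e] at h3
  exact (Real.log_pos_iff (g_pos m (hc.trans h1) (by linarith)).le).1 h3

theorem g_lt (m : ℕ) {c u : ℝ} (hc1 : c < 1) (hgc : g m c = 1) (h0 : 0 < u) (h1 : u < c) :
    g m u < 1 := by
  have hd : 0 < 1 - u := by linarith
  have h3 := conc m h0 (by linarith : u < 2) one_pos (by norm_num : (1 : ℝ) < 2)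
    (by linarith : u < 1).ne (t := (1 - c) / (1 - u)) (div_pos (by linarith) hd)
    (by rw [div_lt_one hd]; linarith)
  have e : (1 - c) / (1 - u) * u + (1 - (1 - c) / (1 - u)) * 1 = c := by
    field_simp
    ring
  rw [e, g_one, hgc, Real.log_one, mul_zero, add_zero] at h3
  have h4 : 0 < (1 - c) / (1 - u) := div_pos (by linarith) hd
  have h5 : Real.log (g m u) < 0 := by
    by_contra hcon
    push Not at hcon
    exact absurd h3 (not_lt.2 (mul_nonneg h4.le hcon))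
  exact (Real.log_neg_iff (g_pos m h0 (by linarith))).1 h5

theorem exists_c (m : ℕ) (hm : 1 ≤ m) : ∃ c : ℝ, 0 < c ∧ c < 1 - 1 / (2 * (m : ℝ) + 1) ∧
    g m c = 1 := by
  have hm' : (1 : ℝ) ≤ m := by exact_mod_cast hm
  set ε : ℝ := 1 / (2 * (m : ℝ) + 1) with hε
  have hd : (0 : ℝ) < 2 * (m : ℝ) + 1 := by linarith
  have hε0 : 0 < ε := by rw [hε]; positivity
  have hε1 : ε ≤ 1 / 3 := by
    rw [hε, div_le_div_iff₀ hd (by norm_num)]; linarith
  have hmε : (m : ℝ) * ε < 1 / 2 := by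
    rw [hε, mul_one_div, div_lt_div_iff₀ hd (by norm_num)]; linarith
  have hg0 : g m 0 = 0 := by
    unfold g
    rw [zero_pow (by omega), zero_mul]
  have hg1 : 1 < g m (1 - ε) := by
    have e : g m (1 - ε) = (1 + -ε ^ 2) ^ m * (1 + ε) := by
      unfold g
      have e1 : (2 : ℝ) - (1 - ε) = 1 + ε := by ring
      have e2 : (1 : ℝ) + -ε ^ 2 = (1 - ε) * (1 + ε) := by ring
      rw [e1, e2, mul_pow, pow_succ (1 + ε) m]
      ring
    rw [e]
    have h1 : 1 + (m : ℝ) * (-ε ^ 2) ≤ (1 + -ε ^ 2) ^ m :=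
      one_add_mul_le_pow (by nlinarith) m
    have h2 : (1 + (m : ℝ) * (-ε ^ 2)) * (1 + ε) ≤ (1 + -ε ^ 2) ^ m * (1 + ε) :=
      mul_le_mul_of_nonneg_right h1 (by linarith)
    refine lt_of_lt_of_le ?_ h2
    have h3 : (m : ℝ) * ε * ε ≤ 1 / 2 * ε := mul_le_mul_of_nonneg_right hmε.le hε0.le
    have h4 : (m : ℝ) * ε * ε * ε ≤ 1 / 2 * ε * ε := mul_le_mul_of_nonneg_right h3 hε0.le
    nlinarith
  obtain ⟨c, hc, hgc⟩ := intermediate_value_Ioo (by linarith : (0 : ℝ) ≤ 1 - ε)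
    (g_cont m).continuousOn (Set.mem_Ioo.2 ⟨by rw [hg0]; exact one_pos, hg1⟩)
  exact ⟨c, hc.1, hc.2, hgc⟩

theorem G_le_one (m : ℕ) {u : ℝ} (h0 : 0 ≤ u) (h1 : u ≤ 1) : G m u ≤ 1 := by
  unfold G
  exact pow_le_one₀ (by nlinarith) (by nlinarith)

theorem G_nonneg (m : ℕ) {u : ℝ} (h0 : 0 ≤ u) (h1 : u ≤ 1) : 0 ≤ G m u := by
  unfold G
  exact pow_nonneg (by nlinarith) _

theorem G_mono (m : ℕ) {u v : ℝ} (h0 : 0 ≤ u) (huv : u ≤ v) (h1 : v ≤ 1) : G m u ≤ G m v := by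
  unfold G
  exact pow_le_pow_left₀ (by nlinarith) (by nlinarith) _

theorem fixed_of_tendsto (m : ℕ) (u : ℕ → ℝ) (hu : ∀ n, u (n + 1) = G m (u n)) (L : ℝ)
    (hL : Tendsto u atTop (𝓝 L)) : G m L = L := by
  have h1 : Tendsto (fun n => u (n + 1)) atTop (𝓝 L) := hL.comp (tendsto_add_atTop_nat 1)
  have h2 : Tendsto (fun n => G m (u n)) atTop (𝓝 (G m L)) := ((G_cont m).tendsto L).comp hL
  have h3 : (fun n => u (n + 1)) = fun n => G m (u n) := funext hu
  rw [h3] at h1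
  exact tendsto_nhds_unique h2 h1

theorem tend_up (m : ℕ) {c : ℝ} (hc : 0 < c) (hgc : g m c = 1) (u : ℕ → ℝ)
    (hu : ∀ n, u (n + 1) = G m (u n)) (h0 : c < u 0) (h1 : u 0 ≤ 1) :
    Tendsto u atTop (𝓝 1) := by
  have hG : ∀ v, c < v → v ≤ 1 → v ≤ G m v := by
    intro v hv hv1
    rw [G_eq]
    rcases hv1.lt_or_eq with h | h
    · have := g_gt m hc hgc hv h
      nlinarith
    · rw [h, g_one, mul_one]
  have key : ∀ n, u 0 ≤ u n ∧ u n ≤ 1 := by
    intro n
    induction n with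
    | zero => exact ⟨le_rfl, h1⟩
    | succ n ih =>
      rw [hu]
      exact ⟨ih.1.trans (hG _ (h0.trans_le ih.1) ih.2),
        G_le_one m (by linarith [ih.1]) ih.2⟩
  have hmono : Monotone u := monotone_nat_of_le_succ fun n => by
    rw [hu]
    exact hG _ (h0.trans_le (key n).1) (key n).2
  have hbdd : BddAbove (Set.range u) := ⟨1, by rintro _ ⟨n, rfl⟩; exact (key n).2⟩
  have ht := tendsto_atTop_ciSup hmono hbdd
  have hL0 : u 0 ≤ ⨆ i, u i := le_ciSup hbdd 0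
  have hL1 : (⨆ i, u i) ≤ 1 := ciSup_le fun n => (key n).2
  have hfix := fixed_of_tendsto m u hu _ ht
  rcases hL1.lt_or_eq with h | h
  · exfalso
    have h2 := g_gt m hc hgc (h0.trans_le hL0) h
    rw [G_eq] at hfix
    have h3 : 0 < ⨆ i, u i := hc.trans (h0.trans_le hL0)
    nlinarith
  · rw [h] at ht
    exact ht

theorem tend_down (m : ℕ) {c : ℝ} (hc1 : c < 1) (hgc : g m c = 1) (u : ℕ → ℝ)
    (hu : ∀ n, u (n + 1) = G m (u n)) (h0 : 0 ≤ u 0) (h1 : u 0 < c) :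
    Tendsto u atTop (𝓝 0) := by
  have hG : ∀ v, 0 ≤ v → v < c → G m v ≤ v := by
    intro v hv hv1
    rw [G_eq]
    rcases hv.lt_or_eq with h | h
    · have := g_lt m hc1 hgc h hv1
      nlinarith
    · rw [← h, zero_mul]
  have key : ∀ n, 0 ≤ u n ∧ u n ≤ u 0 := by
    intro n
    induction n with
    | zero => exact ⟨h0, le_rfl⟩
    | succ n ih =>
      rw [hu]
      exact ⟨G_nonneg m ih.1 (by linarith [ih.2]),
        (hG _ ih.1 (ih.2.trans_lt h1)).trans ih.2⟩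
  have hmono : Antitone u := antitone_nat_of_succ_le fun n => by
    rw [hu]
    exact hG _ (key n).1 ((key n).2.trans_lt h1)
  have hbdd : BddBelow (Set.range u) := ⟨0, by rintro _ ⟨n, rfl⟩; exact (key n).1⟩
  have ht := tendsto_atTop_ciInf hmono hbdd
  have hL0 : (⨅ i, u i) ≤ u 0 := ciInf_le hbdd 0
  have hL1 : 0 ≤ (⨅ i, u i) := le_ciInf fun n => (key n).1
  have hfix := fixed_of_tendsto m u hu _ ht
  rcases hL1.lt_or_eq with h | h
  · exfalso
    have h2 := g_lt m hc1 hgc h (hL0.trans_lt h1)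
    rw [G_eq] at hfix
    nlinarith
  · rw [← h] at ht
    exact ht

theorem G_quad (m : ℕ) (hm : 1 ≤ m) {u : ℝ} (h0 : 0 ≤ u) (h1 : u ≤ 1) : G m u ≤ 4 * u ^ 2 := by
  unfold G
  have h2 : 0 ≤ 1 - (1 - u) ^ 2 := by nlinarith
  have h3 : 1 - (1 - u) ^ 2 ≤ 1 := by nlinarith
  calc (1 - (1 - u) ^ 2) ^ (m + 1) ≤ (1 - (1 - u) ^ 2) ^ 2 :=
        pow_le_pow_of_le_one h2 h3 (by omega)
    _ ≤ (2 * u) ^ 2 := pow_le_pow_left₀ h2 (by nlinarith) 2
    _ = 4 * u ^ 2 := by ring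

theorem sum_bound (m : ℕ) (hm : 1 ≤ m) {c : ℝ} (hc1 : c < 1) (hgc : g m c = 1) (v0 : ℝ)
    (h0 : 0 ≤ v0) (h1 : v0 < c) : ∃ C : ℝ, ∀ u : ℕ → ℝ, 0 ≤ u 0 → u 0 ≤ v0 →
      (∀ k, u (k + 1) = G m (u k)) → ∀ M : ℕ, ∑ k ∈ Finset.range M, 2 ^ k * u k ≤ C := by
  let v : ℕ → ℝ := fun k => (G m)^[k] v0
  have hv0 : v 0 = v0 := rfl
  have hv : ∀ k, v (k + 1) = G m (v k) := fun k => Function.iterate_succ_apply' _ _ _
  have ht := tend_down m hc1 hgc v hv (by rw [hv0]; exact h0) (by rw [hv0]; exact h1)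
  have hGl : ∀ w, 0 ≤ w → w < c → G m w ≤ w := by
    intro w hw hw1
    rw [G_eq]
    rcases hw.lt_or_eq with h | h
    · have := g_lt m hc1 hgc h hw1
      nlinarith
    · rw [← h, zero_mul]
  have hv01 : ∀ k, 0 ≤ v k ∧ v k ≤ v0 := by
    intro k
    induction k with
    | zero => exact ⟨h0, le_rfl⟩
    | succ k ih =>
      rw [hv]
      exact ⟨G_nonneg m ih.1 (by linarith [ih.2]), (hGl _ ih.1 (ih.2.trans_lt h1)).trans ih.2⟩
  have hsum : Summable fun k : ℕ => (2 : ℝ) ^ k * v k := by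
    refine summable_of_ratio_norm_eventually_le (r := 1 / 2) (by norm_num) ?_
    have hev : ∀ᶠ k in atTop, v k < 1 / 16 := (tendsto_order.1 ht).2 _ (by norm_num)
    filter_upwards [hev] with k hk
    have h2 := hv01 k
    have h3 := hv01 (k + 1)
    rw [Real.norm_of_nonneg (mul_nonneg (by positivity) h3.1),
      Real.norm_of_nonneg (mul_nonneg (by positivity) h2.1), hv]
    have h4 := G_quad m hm h2.1 (by linarith [h2.2])
    have h5 : G m (v k) ≤ v k / 4 := by nlinarith [h2.1]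
    have h6 : (0 : ℝ) < 2 ^ k := by positivity
    calc (2 : ℝ) ^ (k + 1) * G m (v k) ≤ 2 ^ (k + 1) * (v k / 4) :=
          mul_le_mul_of_nonneg_left h5 (by positivity)
      _ = 1 / 2 * (2 ^ k * v k) := by rw [pow_succ]; ring
  refine ⟨∑' k : ℕ, (2 : ℝ) ^ k * v k, fun u hu0 hu1 hu M => ?_⟩
  have hle : ∀ k, 0 ≤ u k ∧ u k ≤ v k := by
    intro k
    induction k with
    | zero => exact ⟨hu0, by rw [hv0]; exact hu1⟩
    | succ k ih =>
      rw [hu, hv]
      have h2 := (hv01 k).2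
      exact ⟨G_nonneg m ih.1 (by linarith [ih.2]), G_mono m ih.1 ih.2 (by linarith)⟩
  calc ∑ k ∈ Finset.range M, 2 ^ k * u k ≤ ∑ k ∈ Finset.range M, 2 ^ k * v k :=
        Finset.sum_le_sum fun k _ => mul_le_mul_of_nonneg_left (hle k).2 (by positivity)
    _ ≤ ∑' k : ℕ, (2 : ℝ) ^ k * v k :=
        hsum.sum_le_tsum _ fun k _ => mul_nonneg (by positivity) (hv01 k).1

/-- tangent inequality for powers -/
theorem tangent (m : ℕ) {s t : ℝ} (ht : 0 ≤ t) (hts : t ≤ s) :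
    t ^ (m + 1) ≤ s ^ (m + 1) - (m + 1) * t ^ m * (s - t) := by
  induction m with
  | zero => simp
  | succ m ih =>
    have h1 : 0 ≤ s ^ (m + 1) - t ^ (m + 1) := by
      have := pow_le_pow_left₀ ht hts (m + 1)
      linarith
    have h2 : t * ((m + 1) * t ^ m * (s - t)) ≤ s * (s ^ (m + 1) - t ^ (m + 1)) := by
      calc t * ((m + 1) * t ^ m * (s - t)) ≤ t * (s ^ (m + 1) - t ^ (m + 1)) :=
            mul_le_mul_of_nonneg_left (by linarith) ht
        _ ≤ s * (s ^ (m + 1) - t ^ (m + 1)) := mul_le_mul_of_nonneg_right hts h1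
    push_cast
    have e1 : t ^ (m + 1 + 1) = t ^ m * t * t := by ring
    have e2 : s ^ (m + 1 + 1) = s ^ (m + 1) * s := by ring
    have e3 : t ^ (m + 1) = t ^ m * t := by ring
    rw [e3] at h2 ⊢
    rw [e1, e2]
    nlinarith

end Pool.Agent.N283.EP

namespace Pool.Agent.N283.EP

open Pool.Agent.N988.EP

theorem t_FIX : S_FIX := by
  intro b hb
  obtain ⟨m, rfl⟩ : ∃ m, b = m + 1 := ⟨b - 1, by omega⟩
  have hm : 1 ≤ m := by omega
  have hm' : (1 : ℝ) ≤ m := by exact_mod_cast hm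
  obtain ⟨c, hc, hcε, hgc⟩ := exists_c m hm
  have hd : (0 : ℝ) < 2 * (m : ℝ) + 1 := by linarith
  have hε0 : 0 < 1 / (2 * (m : ℝ) + 1) := by positivity
  have hc1 : c < 1 := by linarith
  have hGc : G m c = c := by rw [G_eq, hgc, mul_one]
  have hGc' : (1 - (1 - c) ^ 2) ^ (m + 1) = c := hGc
  refine ⟨1 - c, by linarith, by linarith, by rw [hGc'], ?_, ?_⟩
  · intro x hx0 hx
    have hu : ∀ n, (fun n => 1 - x n) (n + 1) = G m ((fun n => 1 - x n) n) := by
      intro n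
      show 1 - x (n + 1) = (1 - (1 - (1 - x n)) ^ 2) ^ (m + 1)
      rw [hx]
      ring
    constructor
    · intro h1
      have h2 := tend_up m hc hgc (fun n => 1 - x n) hu (by show c < 1 - x 0; linarith)
        (by show 1 - x 0 ≤ 1; linarith)
      have h3 : Tendsto (fun n => 1 - (1 - x n)) atTop (𝓝 (1 - 1)) := tendsto_const_nhds.sub h2
      simpa using h3
    · intro h1 h1'
      have h2 := tend_down m hc1 hgc (fun n => 1 - x n) hu (by show 0 ≤ 1 - x 0; linarith)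
        (by show 1 - x 0 < c; linarith)
      have h3 : Tendsto (fun n => 1 - (1 - x n)) atTop (𝓝 (1 - 0)) := tendsto_const_nhds.sub h2
      simpa using h3
  · -- the choice of `q`
    set p : ℝ := 1 - c with hp
    have hp0 : 0 < p := by linarith
    have hp1 : p < 1 := by linarith
    have hpm : 1 < p * (2 * (m : ℝ) + 1) := by
      have h1 : 1 / (2 * (m : ℝ) + 1) < p := by linarith
      rwa [div_lt_iff₀ hd] at h1
    have hs0 : 0 < 1 - p ^ 2 := by nlinarith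
    have hder : 1 < (m + 1) * (1 - p ^ 2) ^ m * (2 * p) := by
      have h1 : (1 - p ^ 2) ^ m * (1 - p ^ 2) = 1 - p := by
        rw [← pow_succ, hGc', hp]; ring
      have h2 : (1 - p ^ 2) ^ m * (1 + p) = 1 := by
        have h3 : ((1 - p ^ 2) ^ m * (1 + p)) * (1 - p) = 1 * (1 - p) := by
          calc ((1 - p ^ 2) ^ m * (1 + p)) * (1 - p) = (1 - p ^ 2) ^ m * (1 - p ^ 2) := by ring
            _ = 1 * (1 - p) := by rw [h1, one_mul]
        exact mul_right_cancel₀ (by linarith : (1 - p) ≠ 0) h3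
      have h4 : 0 < (1 - p ^ 2) ^ m := pow_pos hs0 m
      have h5 : (1 + p) < (m + 1) * (2 * p) := by nlinarith
      calc (1 : ℝ) = (1 - p ^ 2) ^ m * (1 + p) := h2.symm
        _ < (1 - p ^ 2) ^ m * ((m + 1) * (2 * p)) := mul_lt_mul_of_pos_left h5 h4
        _ = (m + 1) * (1 - p ^ 2) ^ m * (2 * p) := by ring
    have hcont : Continuous fun q : ℝ => (m + 1) * (1 - p ^ 2 - 2 * p * q) ^ m * (2 * p) := by
      fun_prop
    have hev : ∀ᶠ q in 𝓝 (0 : ℝ), 1 < (m + 1) * (1 - p ^ 2 - 2 * p * q) ^ m * (2 * p) := by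
      have h1 := hcont.tendsto 0
      refine (tendsto_order.1 h1).1 1 ?_
      simpa using hder
    obtain ⟨δ, hδ, hball⟩ := Metric.eventually_nhds_iff.1 hev
    set q : ℝ := min (δ / 2) (c / 2) with hq
    have hq0 : 0 < q := lt_min (by linarith) (by linarith)
    have hqδ : q < δ := (min_le_left _ _).trans_lt (by linarith)
    have hqc : q < c := (min_le_right _ _).trans_lt (by linarith)
    have hq1 : 1 < (m + 1) * (1 - p ^ 2 - 2 * p * q) ^ m * (2 * p) :=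
      hball (by rw [Real.dist_eq, sub_zero, abs_of_pos hq0]; exact hqδ)
    have hcp : c = 1 - p := by rw [hp]; ring
    have hnn : ∀ y, y ≤ 1 - p → 0 ≤ 1 - p ^ 2 - 2 * p * y := by
      intro y hy
      nlinarith [mul_le_mul_of_nonneg_left hy hp0.le, sq_nonneg (1 - p)]
    have hpq : (1 - p ^ 2 - 2 * p * q) ^ (m + 1) ≤ 1 - p - q := by
      have h1 := tangent m (hnn q (by linarith)) (by nlinarith : 1 - p ^ 2 - 2 * p * q ≤ 1 - p ^ 2)
      have h2 : (1 - p ^ 2) ^ (m + 1) = 1 - p := by rw [hGc', hcp]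
      rw [h2] at h1
      have h3 : (m + 1) * (1 - p ^ 2 - 2 * p * q) ^ m * (1 - p ^ 2 - (1 - p ^ 2 - 2 * p * q)) =
          ((m + 1) * (1 - p ^ 2 - 2 * p * q) ^ m * (2 * p)) * q := by ring
      rw [h3] at h1
      nlinarith
    obtain ⟨C, hC⟩ := sum_bound m hm hc1 hgc (1 - p - q) (by linarith) (by linarith)
    refine ⟨q, C, hq0, by linarith, ?_, ?_⟩
    · intro y hy hy1
      have h1 : (1 - p ^ 2 - 2 * p * y) ^ (m + 1) ≤ (1 - p ^ 2 - 2 * p * q) ^ (m + 1) :=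
        pow_le_pow_left₀ (hnn y hy1) (by nlinarith) _
      linarith
    · intro u hu0 hu1 hu M
      exact hC u hu0 hu1 hu M

end Pool.Agent.N283.EP
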